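import Pool.Agent.H46.VIO.Stmts

/-! VIO, row KRV (helper23). -/

set_option linter.all false

namespace Pool.VIO

open Finset

namespace KRVaux

/-- greedy choice (the form used here) -/
def GR : Prop := ∀ (s : Finset ℕ) (c μ : ℕ → ℝ) (η θ : ℝ), 0 ≤ η → 0 ≤ θ → θ ≤ 1 →
  (∀ q ∈ s, 0 < c q ∧ c q ≤ η ∧ 0 ≤ μ q) →
  ∃ F ⊆ s, θ * ∑ q ∈ s, c q - η ≤ ∑ q ∈ F, c q ∧ ∑ q ∈ F, c q ≤ θ * ∑ q ∈ s, c q ∧
    ∑ q ∈ F, μ q ≤ θ * ∑ q ∈ s, μ q

/-- the complement of a greedy choice -/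
theorem grc (hG : GR) (S : Finset ℕ) (c μ : ℕ → ℝ) (η th : ℝ) (hη : 0 ≤ η) (h0 : 0 ≤ th)
    (h1 : th ≤ 1) (h : ∀ q ∈ S, 0 < c q ∧ c q ≤ η ∧ 0 ≤ μ q) :
    ∃ T ⊆ S, ∑ q ∈ T, c q ≤ th * ∑ q ∈ S, c q + η ∧ th * ∑ q ∈ S, μ q ≤ ∑ q ∈ T, μ q := by
  obtain ⟨F, hF, h2, h3, h4⟩ := hG S c μ η (1 - th) hη (by linarith) (by linarith) h
  refine ⟨S \ F, sdiff_subset, ?_, ?_⟩
  · have := Finset.sum_sdiff (f := c) hF
    nlinarith
  · have := Finset.sum_sdiff (f := μ) hF
    nlinarith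

theorem f01 : (0 : Fin 3) ≠ 1 := by decide
theorem f02 : (0 : Fin 3) ≠ 2 := by decide
theorem f12 : (1 : Fin 3) ≠ 2 := by decide

theorem third : ∀ s1 s2 : Fin 3, s1 ≠ s2 → ∃ r, s1 ≠ r ∧ s2 ≠ r := by decide

theorem fin3 : ∀ x i j k : Fin 3, i ≠ j → i ≠ k → j ≠ k → x = i ∨ x = j ∨ x = k := by decide

/-- splitting by the coordinate -/
theorem split3 (s : Finset ℕ) (P : ℕ → Prop) [DecidablePred P] (ix : ℕ → Fin 3) (f : ℕ → ℝ)
    (i j k : Fin 3) (hij : i ≠ j) (hik : i ≠ k) (hjk : j ≠ k) :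
    ∑ q ∈ s.filter P, f q = ∑ q ∈ s.filter (fun q => ix q = i ∧ P q), f q +
      ∑ q ∈ s.filter (fun q => ix q = j ∧ P q), f q +
      ∑ q ∈ s.filter (fun q => ix q = k ∧ P q), f q := by
  simp only [Finset.sum_filter]
  rw [← Finset.sum_add_distrib, ← Finset.sum_add_distrib]
  refine Finset.sum_congr rfl (fun q _ => ?_)
  by_cases hP : P q
  · rcases fin3 (ix q) i j k hij hik hjk with h | h | h
    · simp [hP, h, hij, hik]
    · simp [hP, h, hij.symm, hjk]
    · simp [hP, h, hik.symm, hjk.symm]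
  · simp [hP]

theorem split2 (s : Finset ℕ) (P : ℕ → Prop) [DecidablePred P] (Q : ℕ → Prop) [DecidablePred Q]
    (f : ℕ → ℝ) :
    ∑ q ∈ s.filter P, f q = ∑ q ∈ s.filter (fun q => Q q ∧ P q), f q +
      ∑ q ∈ s.filter (fun q => ¬ Q q ∧ P q), f q := by
  simp only [Finset.sum_filter]
  rw [← Finset.sum_add_distrib]
  refine Finset.sum_congr rfl (fun q _ => ?_)
  by_cases hP : P q <;> by_cases hQ : Q q <;> simp [hP, hQ]

end KRVaux

open KRVaux in
theorem krv_core (hG : GR) (τ c0 η c2 δ lam : ℝ) (hτ : 0 < τ) (hτ1 : τ ≤ 1) (hc0 : c0 = τ / 400)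
    (hη : η = c0 / 10) (hc2 : 0 < c2) (hc2' : c2 ≤ c0 / 8) (hlam : 8 * c2 ≤ lam)
    (hδ : δ = c0 * c2 / 100) (s : Finset ℕ) (c μ : ℕ → ℝ) (i : ℕ → Fin 3) (ν : ℝ) (s1 s2 : Fin 3)
    (h12 : s1 ≠ s2) (hc : ∀ q ∈ s, 0 < c q) (hμ : ∀ q ∈ s, 0 ≤ μ q) (hν : 0 ≤ ν)
    (hcs : ∑ q ∈ s, c q ≤ 1) (htot : 3 - δ ≤ ∑ q ∈ s, μ q + ν)
    (hr : ∀ r, ∑ q ∈ s.filter (fun q => i q = r), μ q ≤ 1)
    (hm1 : 1 - δ ≤ ∑ q ∈ s.filter (fun q => i q = s1), μ q)
    (hm2 : 1 - δ ≤ ∑ q ∈ s.filter (fun q => i q = s2), μ q) :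
    ∃ K ⊆ s,
      (∑ q ∈ K, c q ≤ 2 / 3 - c0 ∧ 2 + δ ≤ ∑ q ∈ K, μ q + ν) ∨
      (∑ q ∈ K, c q ≤ 2 / 3 - c0 ∧ ∃ t, δ ≤ ∑ q ∈ K.filter (fun q => i q = t), μ q ∧
        ∀ q ∈ s, q ∉ K → i q ≠ t → η < c q) ∨
      (∑ q ∈ K, c q ≤ 2 / 3 - c0 ∧ ∃ t, η / 4 ≤ ∑ q ∈ K.filter (fun q => i q = t), μ q ∧
        ∑ q ∈ s.filter (fun q => q ∉ K ∧ i q ≠ t ∧ c q ≤ η), μ q ≤ lam) ∨
      (∃ t, ∃ T ⊆ K, (∀ q ∈ T, i q = t) ∧ ∑ q ∈ K, c q + ∑ q ∈ T, c q ≤ 3 / 5 ∧
        1 / 4 ≤ ∑ q ∈ T, μ q ∧ ∀ q ∈ s, q ∉ K → i q ≠ t → |μ q - 3 * c q| ≤ τ * c q) := by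
  classical
  have c00 : 0 < c0 := by rw [hc0]; positivity
  have c01 : c0 ≤ 1 / 400 := by rw [hc0]; linarith
  have η0 : 0 < η := by rw [hη]; positivity
  have δ0 : 0 < δ := by rw [hδ]; positivity
  have δ1 : δ ≤ c0 / 1000 := by
    rw [hδ]
    nlinarith
  have δ2 : δ ≤ c0 / 4 * c2 := by
    rw [hδ]
    nlinarith [mul_pos c00 hc2]
  by_contra hcon
  -- sums over subsets of `s`
  have subc : ∀ A B : Finset ℕ, A ⊆ B → B ⊆ s → ∑ q ∈ A, c q ≤ ∑ q ∈ B, c q := fun A B hAB hB =>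
    Finset.sum_le_sum_of_subset_of_nonneg hAB (fun q hq _ => (hc q (hB hq)).le)
  have subm : ∀ A B : Finset ℕ, A ⊆ B → B ⊆ s → ∑ q ∈ A, μ q ≤ ∑ q ∈ B, μ q := fun A B hAB hB =>
    Finset.sum_le_sum_of_subset_of_nonneg hAB (fun q hq _ => hμ q (hB hq))
  have nnc : ∀ A : Finset ℕ, A ⊆ s → 0 ≤ ∑ q ∈ A, c q := fun A hA =>
    Finset.sum_nonneg (fun q hq => (hc q (hA hq)).le)
  have nnm : ∀ A : Finset ℕ, A ⊆ s → 0 ≤ ∑ q ∈ A, μ q := fun A hA =>
    Finset.sum_nonneg (fun q hq => hμ q (hA hq))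
  have unc : ∀ A B : Finset ℕ, A ⊆ s → B ⊆ s → ∑ q ∈ A ∪ B, c q ≤ ∑ q ∈ A, c q + ∑ q ∈ B, c q := by
    intro A B hA hB
    have h1 := Finset.sum_union_inter (s₁ := A) (s₂ := B) (f := c)
    have h2 := nnc (A ∩ B) (inter_subset_left.trans hA)
    linarith
  have unm : ∀ A B : Finset ℕ, A ⊆ s → B ⊆ s → ∑ q ∈ A ∪ B, μ q ≤ ∑ q ∈ A, μ q + ∑ q ∈ B, μ q := by
    intro A B hA hB
    have h1 := Finset.sum_union_inter (s₁ := A) (s₂ := B) (f := μ)
    have h2 := nnm (A ∩ B) (inter_subset_left.trans hA)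
    linarith
  -- option 1 fails
  have h1 : ∀ F ⊆ s, ∑ q ∈ F, μ q ≤ 1 - 2 * δ → ∑ q ∈ F, c q < 1 / 3 + c0 := by
    intro F hF hFm
    by_contra hlt
    push Not at hlt
    apply hcon
    have e1 := Finset.sum_sdiff (f := c) hF
    have e2 := Finset.sum_sdiff (f := μ) hF
    exact ⟨s \ F, sdiff_subset, Or.inl ⟨by linarith, by linarith⟩⟩
  -- the small items
  set S : Finset ℕ := s.filter (fun q => c q ≤ η) with hS
  have hSs : S ⊆ s := filter_subset _ _
  set Sr : Fin 3 → Finset ℕ := fun r => s.filter (fun q => i q = r ∧ c q ≤ η) with hSr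
  have hSrs : ∀ r, Sr r ⊆ s := fun r => filter_subset _ _
  have hSmem : ∀ q ∈ S, 0 < c q ∧ c q ≤ η ∧ 0 ≤ μ q := fun q hq =>
    ⟨hc q (hSs hq), (mem_filter.1 hq).2, hμ q (hSs hq)⟩
  have hSrmem : ∀ r, ∀ q ∈ Sr r, 0 < c q ∧ c q ≤ η ∧ 0 ≤ μ q := fun r q hq =>
    ⟨hc q (hSrs r hq), (mem_filter.1 hq).2.2, hμ q (hSrs r hq)⟩
  set a : Fin 3 → ℝ := fun r => ∑ q ∈ Sr r, c q with ha
  set M : Fin 3 → ℝ := fun r => ∑ q ∈ Sr r, μ q with hM
  set σ : ℝ := ∑ q ∈ S, c q with hσ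
  have hσ1 : σ ≤ 1 := (subc S s hSs (Subset.refl s)).trans hcs
  have ha0 : ∀ r, 0 ≤ a r := fun r => nnc _ (hSrs r)
  have hM1 : ∀ r, M r ≤ 1 := fun r => le_trans (subm _ _ (by
    intro q hq
    rw [mem_filter] at hq ⊢
    exact ⟨hq.1, hq.2.1⟩) (filter_subset _ _)) (hr r)
  have hsplit : ∀ i' j k : Fin 3, i' ≠ j → i' ≠ k → j ≠ k → σ = a i' + a j + a k := by
    intro i' j k h1 h2 h3
    exact split3 s (fun q => c q ≤ η) i c i' j k h1 h2 h3
  have hsplitm : ∀ i' j k : Fin 3, i' ≠ j → i' ≠ k → j ≠ k →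
      ∑ q ∈ S, μ q = M i' + M j + M k := by
    intro i' j k h1 h2 h3
    exact split3 s (fun q => c q ≤ η) i μ i' j k h1 h2 h3
  -- option 2 fails
  have h2 : ∀ t, c2 ≤ M t → 2 / 3 - 3 / 2 * c0 < σ - a t := by
    intro t ht
    by_contra hlt
    push Not at hlt
    obtain ⟨T, hT, hTc, hTm⟩ := grc hG (Sr t) c μ η (c0 / 4) η0.le (by positivity) (by linarith)
      (hSrmem t)
    have hTs : T ⊆ s := hT.trans (hSrs t)
    set R : Finset ℕ := s.filter (fun q => ¬ i q = t ∧ c q ≤ η) with hR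
    have hRs : R ⊆ s := filter_subset _ _
    have e1 : σ = a t + ∑ q ∈ R, c q := split2 s (fun q => c q ≤ η) (fun q => i q = t) c
    apply hcon
    refine ⟨T ∪ R, union_subset hTs hRs, Or.inr (Or.inl ⟨?_, t, ?_, ?_⟩)⟩
    · have e2 := unc T R hTs hRs
      have e3 : c0 / 4 * ∑ q ∈ Sr t, c q ≤ c0 / 4 := by
        have : ∑ q ∈ Sr t, c q ≤ 1 := (subc _ s (hSrs t) (Subset.refl s)).trans hcs
        exact mul_le_of_le_one_right (by positivity) this
      have e4 : ∑ q ∈ R, c q = σ - a t := by linarith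
      rw [hη] at hTc
      linarith
    · have e5 : ∑ q ∈ T, μ q ≤ ∑ q ∈ (T ∪ R).filter (fun q => i q = t), μ q := by
        refine subm _ _ (fun q hq => ?_) ((filter_subset _ _).trans (union_subset hTs hRs))
        rw [mem_filter, mem_union]
        exact ⟨Or.inl hq, (mem_filter.1 (hT hq)).2.1⟩
      have e6 : c0 / 4 * c2 ≤ c0 / 4 * ∑ q ∈ Sr t, μ q :=
        mul_le_mul_of_nonneg_left ht (by positivity)
      linarith
    · intro q hq hqK hqt
      by_contra hle
      push Not at hle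
      exact hqK (mem_union.2 (Or.inr (mem_filter.2 ⟨hq, hqt, hle⟩)))
  -- case 0: no coordinate with much small mass
  have case0 : (∀ r, M r < c2) → False := by
    intro hall
    have key : ∀ t, 1 - δ ≤ ∑ q ∈ s.filter (fun q => i q = t), μ q →
        1 / 2 < ∑ q ∈ s.filter (fun q => i q = t), c q := by
      intro t ht
      by_contra hle
      push Not at hle
      set Lt : Finset ℕ := s.filter (fun q => ¬ c q ≤ η ∧ i q = t) with hLt
      have hLs : Lt ⊆ s := filter_subset _ _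
      have e1 : ∑ q ∈ s.filter (fun q => i q = t), μ q =
          ∑ q ∈ s.filter (fun q => c q ≤ η ∧ i q = t), μ q + ∑ q ∈ Lt, μ q :=
        split2 s (fun q => i q = t) (fun q => c q ≤ η) μ
      have e2 : ∑ q ∈ s.filter (fun q => c q ≤ η ∧ i q = t), μ q = M t := by
        simp only [hM, hSr]
        congr 1
        ext q
        simp only [mem_filter]
        tauto
      have e3 := hall t
      obtain ⟨q, hqL, hq⟩ : ∃ q ∈ Lt, η / 4 ≤ μ q := by
        by_contra hno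
        push Not at hno
        have f1 : ∑ q ∈ Lt, μ q ≤ ∑ q ∈ Lt, c q / 4 := by
          refine Finset.sum_le_sum (fun q hq => ?_)
          have g1 := hno q hq
          have g2 : η < c q := not_le.1 (mem_filter.1 hq).2.1
          linarith
        rw [← Finset.sum_div] at f1
        have f2 : ∑ q ∈ Lt, c q ≤ 1 := (subc _ s hLs (Subset.refl s)).trans hcs
        linarith
      have hqs : q ∈ s := hLs hqL
      have hqt : i q = t := (mem_filter.1 hqL).2.2
      apply hcon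
      refine ⟨{q}, singleton_subset_iff.2 hqs, Or.inr (Or.inr (Or.inl ⟨?_, t, ?_, ?_⟩))⟩
      · have f3 : ∑ x ∈ ({q} : Finset ℕ), c x ≤ ∑ q ∈ s.filter (fun q => i q = t), c q :=
          subc _ _ (singleton_subset_iff.2 (mem_filter.2 ⟨hqs, hqt⟩)) (filter_subset _ _)
        linarith
      · rw [filter_true_of_mem (by intro x hx; rw [mem_singleton.1 hx]; exact hqt), sum_singleton]
        exact hq
      · have f4 : ∑ x ∈ s.filter (fun x => x ∉ ({q} : Finset ℕ) ∧ i x ≠ t ∧ c x ≤ η), μ x ≤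
            ∑ x ∈ s.filter (fun x => ¬ i x = t ∧ c x ≤ η), μ x :=
          subm _ _ (fun x hx => by
            rw [mem_filter] at hx ⊢
            exact ⟨hx.1, hx.2.2.1, hx.2.2.2⟩) (filter_subset _ _)
        have f5 : ∑ q ∈ S, μ q = ∑ q ∈ s.filter (fun q => i q = t ∧ c q ≤ η), μ q +
            ∑ q ∈ s.filter (fun q => ¬ i q = t ∧ c q ≤ η), μ q :=
          split2 s (fun q => c q ≤ η) (fun q => i q = t) μ
        have f6 : ∑ q ∈ S, μ q = M 0 + M 1 + M 2 := hsplitm 0 1 2 f01 f02 f12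
        have f7 : ∑ q ∈ s.filter (fun q => i q = t ∧ c q ≤ η), μ q = M t := rfl
        have f8 : 0 ≤ M t := nnm _ (hSrs t)
        have g0 := hall 0
        have g1 := hall 1
        have g2 := hall 2
        linarith
    have k1 := key s1 hm1
    have k2 := key s2 hm2
    have k3 : ∑ q ∈ s.filter (fun q => i q = s1), c q + ∑ q ∈ s.filter (fun q => i q = s2), c q ≤
        ∑ q ∈ s, c q := by
      rw [← Finset.sum_union]
      · exact subc _ s (union_subset (filter_subset _ _) (filter_subset _ _)) (Subset.refl s)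
      · rw [Finset.disjoint_left]
        intro q hq1 hq2
        exact h12 ((mem_filter.1 hq1).2.symm.trans (mem_filter.1 hq2).2)
    linarith
  -- case 1
  have case1 : ∀ i' j k : Fin 3, i' ≠ j → i' ≠ k → j ≠ k → c2 ≤ M i' → M j < c2 → M k < c2 →
      False := by
    intro i' j k hij hik hjk hi hj hk
    have e1 := h2 i' hi
    have e2 := hsplit i' j k hij hik hjk
    have hdis : Disjoint (Sr j) (Sr k) := by
      rw [Finset.disjoint_left]
      intro q hq1 hq2
      exact hjk ((mem_filter.1 hq1).2.1.symm.trans (mem_filter.1 hq2).2.1)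
    have e3 := h1 (Sr j ∪ Sr k) (union_subset (hSrs j) (hSrs k)) (by
      rw [Finset.sum_union hdis]
      have g1 : ∑ q ∈ Sr j, μ q < c2 := hj
      have g2 : ∑ q ∈ Sr k, μ q < c2 := hk
      linarith)
    rw [Finset.sum_union hdis] at e3
    have g3 : ∑ q ∈ Sr j, c q = a j := rfl
    have g4 : ∑ q ∈ Sr k, c q = a k := rfl
    linarith
  -- case 2
  have case2 : ∀ i' j k : Fin 3, i' ≠ j → i' ≠ k → j ≠ k → c2 ≤ M i' → c2 ≤ M j → M k < c2 →
      False := by
    intro i' j k hij hik hjk hi hj hk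
    have e1 := h2 i' hi
    have e1' := h2 j hj
    have e2 := hsplit i' j k hij hik hjk
    have hdis : Disjoint (Sr i') (Sr j) := by
      rw [Finset.disjoint_left]
      intro q hq1 hq2
      exact hij ((mem_filter.1 hq1).2.1.symm.trans (mem_filter.1 hq2).2.1)
    obtain ⟨F, hF, f1, -, f3⟩ := hG (Sr i' ∪ Sr j) c μ η ((1 - c2 - 2 * δ) / 2) η0.le
      (by linarith) (by linarith) (by
        intro q hq
        rcases mem_union.1 hq with h | h
        · exact hSrmem i' q h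
        · exact hSrmem j q h)
    rw [Finset.sum_union hdis] at f1 f3
    have hFs : F ⊆ s := hF.trans (union_subset (hSrs i') (hSrs j))
    have hdis2 : Disjoint (Sr k) F := by
      rw [Finset.disjoint_left]
      intro q hq1 hq2
      rcases mem_union.1 (hF hq2) with h | h
      · exact hik ((mem_filter.1 h).2.1.symm.trans (mem_filter.1 hq1).2.1)
      · exact hjk ((mem_filter.1 h).2.1.symm.trans (mem_filter.1 hq1).2.1)
    have g1 : ∑ q ∈ Sr i', μ q ≤ 1 := hM1 i'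
    have g2 : ∑ q ∈ Sr j, μ q ≤ 1 := hM1 j
    have g3 : ∑ q ∈ Sr k, μ q < c2 := hk
    have e3 := h1 (Sr k ∪ F) (union_subset (hSrs k) hFs) (by
      rw [Finset.sum_union hdis2]
      have g10 := mul_le_mul_of_nonneg_left (add_le_add g1 g2)
        (by linarith : 0 ≤ (1 - c2 - 2 * δ) / 2)
      linarith)
    rw [Finset.sum_union hdis2] at e3
    have g4 : ∑ q ∈ Sr i', c q = a i' := rfl
    have g5 : ∑ q ∈ Sr j, c q = a j := rfl
    have g6 : ∑ q ∈ Sr k, c q = a k := rfl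
    rw [g4, g5] at f1
    rw [g6] at e3
    have g7 : a i' + a j ≤ 1 := by
      have := ha0 k
      linarith
    have g8 : 0 ≤ a i' + a j := add_nonneg (ha0 i') (ha0 j)
    have g9 : (a i' + a j) / 2 - (c2 + 2 * δ) / 2 ≤ (1 - c2 - 2 * δ) / 2 * (a i' + a j) := by
      have := mul_le_of_le_one_right (by positivity : 0 ≤ (c2 + 2 * δ) / 2) g7
      linarith
    rw [hη] at f1
    linarith
  -- case 3
  have case3 : c2 ≤ M 0 → c2 ≤ M 1 → c2 ≤ M 2 → False := by
    intro hM0 hM1' hM2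
    have e0 := h2 0 hM0
    have e1 := h2 1 hM1'
    have e2 := h2 2 hM2
    have e3 := hsplit 0 1 2 f01 f02 f12
    have hσ3 : 1 - 3 * c0 < σ := by linarith
    set W : ℝ := ∑ q ∈ S, μ q with hW
    have hW3 : W ≤ 3 := by
      have := hsplitm 0 1 2 f01 f02 f12
      have := hM1 0
      have := hM1 1
      have := hM1 2
      linarith
    have hWlow : 3 - 30 * c0 ≤ W := by
      by_contra hlt
      push Not at hlt
      by_cases hWs : W ≤ 1 - 2 * δ
      · have := h1 S hSs hWs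
        linarith
      · push Not at hWs
        have hW0 : 0 < W := by linarith
        obtain ⟨F, hF, f1, -, f3⟩ := hG S c μ η ((1 - 2 * δ) / W) η0.le
          (div_nonneg (by linarith) hW0.le) (by rw [div_le_one hW0]; exact hWs.le) hSmem
        have f4 : (1 - 2 * δ) / W * W = 1 - 2 * δ := div_mul_cancel₀ _ hW0.ne'
        have f5 := h1 F (hF.trans hSs) (by linarith)
        have f6 : (1 - 2 * δ) / W * σ < 1 / 3 + c0 + η := by linarith
        have f7 : (1 - 2 * δ) * σ < (1 / 3 + c0 + η) * W := by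
          have := mul_lt_mul_of_pos_right f6 hW0
          have e : (1 - 2 * δ) / W * σ * W = (1 - 2 * δ) * σ := by field_simp
          linarith
        have f8 : (1 / 3 + c0 + η) * W ≤ (1 / 3 + c0 + η) * (3 - 30 * c0) :=
          mul_le_mul_of_nonneg_left hlt.le (by positivity)
        have f9 : σ - 2 * δ ≤ (1 - 2 * δ) * σ := by
          have := mul_le_of_le_one_right (by positivity : 0 ≤ 2 * δ) hσ1
          linarith
        rw [hη] at f7 f8
        have f10 := mul_pos c00 c00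
        linarith
    -- two-part greedy choice
    have two : ∀ A ⊆ S, ∀ th : ℝ, 0 ≤ th → th ≤ 1 / 3 →
        th * W + (∑ q ∈ A, μ q) / 4 ≤ 1 - 2 * δ →
        th * σ + (∑ q ∈ A, c q) / 4 - 2 * η < 1 / 3 + c0 := by
      intro A hA th hth0 hth1 hm
      obtain ⟨F1, hF1, f1, -, f3⟩ := hG A c μ η (th + 1 / 4) η0.le (by linarith) (by linarith)
        (fun q hq => hSmem q (hA hq))
      obtain ⟨F2, hF2, k1, -, k3⟩ := hG (S \ A) c μ η th η0.le hth0 (by linarith)
        (fun q hq => hSmem q (sdiff_subset hq))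
      have hdis : Disjoint F1 F2 :=
        Finset.disjoint_of_subset_left hF1 (Finset.disjoint_of_subset_right hF2 disjoint_sdiff)
      have e1 := Finset.sum_sdiff (f := c) hA
      have e2 := Finset.sum_sdiff (f := μ) hA
      have hF1s : F1 ⊆ s := (hF1.trans hA).trans hSs
      have hF2s : F2 ⊆ s := (hF2.trans sdiff_subset).trans hSs
      have e4 : ∑ q ∈ S \ A, c q = σ - ∑ q ∈ A, c q := by linarith
      have e5 : ∑ q ∈ S \ A, μ q = W - ∑ q ∈ A, μ q := by linarith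
      rw [e4] at k1
      rw [e5] at k3
      have e3 := h1 (F1 ∪ F2) (union_subset hF1s hF2s) (by
        rw [Finset.sum_union hdis]
        linarith)
      rw [Finset.sum_union hdis] at e3
      linarith
    -- the items of small ratio
    set Lo : Finset ℕ := S.filter (fun q => μ q < (3 - τ) * c q) with hLo
    have hLoS : Lo ⊆ S := filter_subset _ _
    have hLos : Lo ⊆ s := hLoS.trans hSs
    have hl : τ * ∑ q ∈ Lo, c q < 36 * c0 := by
      have g1 : ∑ q ∈ Lo, μ q ≤ (3 - τ) * ∑ q ∈ Lo, c q := by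
        rw [Finset.mul_sum]
        exact Finset.sum_le_sum (fun q hq => (mem_filter.1 hq).2.le)
      have g2 : ∑ q ∈ Lo, μ q ≤ 3 := le_trans (subm _ _ hLoS hSs) hW3
      have g3 : 0 ≤ ∑ q ∈ Lo, μ q := nnm _ hLos
      have g4 := two Lo hLoS ((1 - 2 * δ - (∑ q ∈ Lo, μ q) / 4) / 3) (by linarith) (by linarith) (by
        have hth : 0 ≤ (1 - 2 * δ - (∑ q ∈ Lo, μ q) / 4) / 3 := by linarith
        have := mul_le_mul_of_nonneg_left hW3 hth
        linarith)
      have g5 : (1 - 2 * δ - (∑ q ∈ Lo, μ q) / 4) / 3 - c0 ≤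
          (1 - 2 * δ - (∑ q ∈ Lo, μ q) / 4) / 3 * σ := by
        have h3 : (1 - 2 * δ - (∑ q ∈ Lo, μ q) / 4) / 3 ≤ 1 / 3 := by linarith
        have h4 := mul_le_mul h3 (by linarith : 1 - σ ≤ 3 * c0) (by linarith) (by norm_num)
        linarith
      rw [hη] at g4
      linarith
    -- the items of large ratio
    set Hi : Finset ℕ := S.filter (fun q => (3 + τ) * c q < μ q) with hHi
    have hHiS : Hi ⊆ S := filter_subset _ _
    have hHis : Hi ⊆ s := hHiS.trans hSs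
    have hu : τ * ∑ q ∈ Hi, c q < 36 * c0 := by
      have g1 : (3 + τ) * ∑ q ∈ Hi, c q ≤ ∑ q ∈ Hi, μ q := by
        rw [Finset.mul_sum]
        exact Finset.sum_le_sum (fun q hq => (mem_filter.1 hq).2.le)
      have e1 := Finset.sum_sdiff (f := c) hHiS
      have e2 := Finset.sum_sdiff (f := μ) hHiS
      have hNs : S \ Hi ⊆ s := sdiff_subset.trans hSs
      have g3 : 0 ≤ ∑ q ∈ S \ Hi, μ q := nnm _ hNs
      have g2 : ∑ q ∈ S \ Hi, μ q ≤ 3 := le_trans (subm _ _ sdiff_subset hSs) hW3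
      have g4 := two (S \ Hi) sdiff_subset ((1 - 2 * δ - (∑ q ∈ S \ Hi, μ q) / 4) / 3)
        (by linarith) (by linarith) (by
        have hth : 0 ≤ (1 - 2 * δ - (∑ q ∈ S \ Hi, μ q) / 4) / 3 := by linarith
        have := mul_le_mul_of_nonneg_left hW3 hth
        linarith)
      have g5 : (1 - 2 * δ - (∑ q ∈ S \ Hi, μ q) / 4) / 3 - c0 ≤
          (1 - 2 * δ - (∑ q ∈ S \ Hi, μ q) / 4) / 3 * σ := by
        have h3 : (1 - 2 * δ - (∑ q ∈ S \ Hi, μ q) / 4) / 3 ≤ 1 / 3 := by linarith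
        have h4 := mul_le_mul h3 (by linarith : 1 - σ ≤ 3 * c0) (by linarith) (by norm_num)
        linarith
      rw [hη] at g4
      linarith
    -- the bad items
    set La : Finset ℕ := s.filter (fun q => ¬ c q ≤ η) with hLa
    have hLas : La ⊆ s := filter_subset _ _
    have q1 : ∑ q ∈ La, c q ≤ 3 * c0 := by
      have := Finset.sum_filter_add_sum_filter_not s (fun q => c q ≤ η) c
      have g : ∑ q ∈ s.filter (fun q => c q ≤ η), c q = σ := rfl
      linarith
    have hmtot : ∑ q ∈ s, μ q ≤ 3 := by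
      have e := split3 s (fun _ => True) i μ 0 1 2 f01 f02 f12
      simp only [Finset.filter_true, and_true] at e
      have r0 := hr 0
      have r1 := hr 1
      have r2 := hr 2
      linarith
    have q2 : ∑ q ∈ La, μ q ≤ 30 * c0 := by
      have := Finset.sum_filter_add_sum_filter_not s (fun q => c q ≤ η) μ
      have g : ∑ q ∈ s.filter (fun q => c q ≤ η), μ q = W := rfl
      linarith
    have hfin : ∀ t, 1 - δ ≤ ∑ q ∈ s.filter (fun q => i q = t), μ q → 1 / 2 < a t := by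
      intro t ht
      by_contra hle
      push Not at hle
      have m1 : ∑ q ∈ s.filter (fun q => i q = t), μ q =
          ∑ q ∈ s.filter (fun q => c q ≤ η ∧ i q = t), μ q +
            ∑ q ∈ s.filter (fun q => ¬ c q ≤ η ∧ i q = t), μ q :=
        split2 s (fun q => i q = t) (fun q => c q ≤ η) μ
      have m2 : ∑ q ∈ s.filter (fun q => c q ≤ η ∧ i q = t), μ q = M t := by
        simp only [hM, hSr]
        congr 1
        ext q
        simp only [mem_filter]
        tauto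
      have m3 : ∑ q ∈ s.filter (fun q => ¬ c q ≤ η ∧ i q = t), μ q ≤ ∑ q ∈ La, μ q :=
        subm _ _ (fun q hq => by
          rw [mem_filter] at hq ⊢
          exact ⟨hq.1, hq.2.1⟩) hLas
      have m4 : 9 / 10 ≤ M t := by linarith
      have m5 : 0 < M t := by linarith
      have m6 : 1 / 4 / M t ≤ 5 / 18 := by
        rw [div_le_iff₀ m5]
        linarith
      have m7 : 0 ≤ 1 / 4 / M t := by positivity
      obtain ⟨T, hT, hTc, hTm⟩ := grc hG (Sr t) c μ η (1 / 4 / M t) η0.le m7 (by linarith)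
        (hSrmem t)
      have hTs : T ⊆ s := hT.trans (hSrs t)
      have m8 : 1 / 4 / M t * ∑ q ∈ Sr t, μ q = 1 / 4 := div_mul_cancel₀ _ m5.ne'
      have m9 : 1 / 4 / M t * ∑ q ∈ Sr t, c q ≤ 5 / 36 := by
        have n1 : ∑ q ∈ Sr t, c q ≤ 1 / 2 := hle
        have n2 : 0 ≤ ∑ q ∈ Sr t, c q := ha0 t
        have n3 := mul_le_mul m6 n1 n2 (by norm_num)
        linarith
      have hbs : (Lo ∪ Hi) ∪ La ⊆ s := union_subset (union_subset hLos hHis) hLas
      set B : Finset ℕ := ((Lo ∪ Hi) ∪ La).filter (fun q => i q ≠ t) with hB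
      have hBs : B ⊆ s := (filter_subset _ _).trans hbs
      have b1 : ∑ q ∈ B, c q ≤ ∑ q ∈ (Lo ∪ Hi) ∪ La, c q := subc _ _ (filter_subset _ _) hbs
      have b2 := unc (Lo ∪ Hi) La (union_subset hLos hHis) hLas
      have b3 := unc Lo Hi hLos hHis
      have b4 : ∑ q ∈ Lo, c q ≤ 9 / 100 := by
        have : c0 = τ / 400 := hc0
        rw [this] at hl
        by_contra hgt
        push Not at hgt
        have := mul_lt_mul_of_pos_left hgt hτ
        linarith
      have b5 : ∑ q ∈ Hi, c q ≤ 9 / 100 := by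
        have : c0 = τ / 400 := hc0
        rw [this] at hu
        by_contra hgt
        push Not at hgt
        have := mul_lt_mul_of_pos_left hgt hτ
        linarith
      have b6 := unc T B hTs hBs
      apply hcon
      refine ⟨T ∪ B, union_subset hTs hBs, Or.inr (Or.inr (Or.inr ⟨t, T, subset_union_left, ?_, ?_,
        ?_, ?_⟩))⟩
      · intro q hq
        exact (mem_filter.1 (hT hq)).2.1
      · rw [hη] at hTc
        linarith
      · linarith
      · intro q hq hqK hqt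
        have hqB : q ∉ (Lo ∪ Hi) ∪ La := by
          intro hqb
          exact hqK (mem_union.2 (Or.inr (mem_filter.2 ⟨hqb, hqt⟩)))
        rw [mem_union, mem_union] at hqB
        push Not at hqB
        obtain ⟨⟨p1, p2⟩, p3⟩ := hqB
        have p4 : c q ≤ η := by
          by_contra hgt
          exact p3 (mem_filter.2 ⟨hq, hgt⟩)
        have hqS : q ∈ S := mem_filter.2 ⟨hq, p4⟩
        have p5 : (3 - τ) * c q ≤ μ q := by
          by_contra hgt
          exact p1 (mem_filter.2 ⟨hqS, not_le.1 hgt⟩)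
        have p6 : μ q ≤ (3 + τ) * c q := by
          by_contra hgt
          exact p2 (mem_filter.2 ⟨hqS, not_le.1 hgt⟩)
        rw [abs_le]
        constructor <;> linarith
    have y1 := hfin s1 hm1
    have y2 := hfin s2 hm2
    obtain ⟨r, hr1, hr2⟩ := third s1 s2 h12
    have y3 := hsplit s1 s2 r h12 hr1 hr2
    have y4 := ha0 r
    linarith
  rcases lt_or_ge (M 0) c2 with m0 | m0 <;> rcases lt_or_ge (M 1) c2 with m1 | m1 <;>
    rcases lt_or_ge (M 2) c2 with m2 | m2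
  · exact case0 (fun r => by
      rcases fin3 r 0 1 2 f01 f02 f12 with h | h | h <;> rw [h] <;> assumption)
  · exact case1 2 0 1 f02.symm f12.symm f01 m2 m0 m1
  · exact case1 1 0 2 f01.symm f12 f02 m1 m0 m2
  · exact case2 1 2 0 f12 f01.symm f02.symm m1 m2 m0
  · exact case1 0 1 2 f01 f02 f12 m0 m1 m2
  · exact case2 0 2 1 f02 f01 f12.symm m0 m2 m1
  · exact case2 0 1 2 f01 f02 f12 m0 m1 m2
  · exact case3 m0 m1 m2

theorem krv_thm (hG : S_GRL) : S_KRV := by
  intro τ hτ hτ1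
  refine ⟨τ / 400, τ / 4000, by positivity, by linarith, by positivity, by linarith, ?_⟩
  intro lam hlam
  have h1 : 0 < min lam (τ / 400) := lt_min hlam (by positivity)
  have h2 : min lam (τ / 400) ≤ lam := min_le_left _ _
  have h3 : min lam (τ / 400) ≤ τ / 400 := min_le_right _ _
  have h4 : τ / 400 * (min lam (τ / 400) / 8) ≤ 1 := by
    have a1 : τ / 400 ≤ 1 := by linarith
    have a2 : min lam (τ / 400) / 8 ≤ 1 := by linarith
    have := mul_le_mul a1 a2 (by positivity) zero_le_one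
    linarith
  refine ⟨τ / 400 * (min lam (τ / 400) / 8) / 100, by positivity, by linarith, ?_⟩
  intro s c μ i ν s1 s2 h12 hc hμ hν hcs htot hr hm1 hm2
  exact krv_core hG τ (τ / 400) (τ / 4000) (min lam (τ / 400) / 8) _ lam hτ hτ1 rfl (by ring)
    (by positivity) (by linarith) (by linarith) rfl s c μ i ν s1 s2 h12 hc hμ hν hcs htot hr hm1 hm2

end Pool.VIO
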